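import Mathlib
import Pool.Agent.N740.HK.Rx

/-!
# Many trials in a sequential model of the primes (helper424)
-/

set_option autoImplicit false
set_option linter.unusedSectionVars false

open MeasureTheory Filter Set
open scoped ENNReal Topology NNReal

namespace Pool.Agent.N424.SMB

open Pool.Agent.R528.RM Pool.Agent.N740.HK

variable {Ω : Type} {m0 : MeasurableSpace Ω} {μ : Measure Ω} [IsProbabilityMeasure μ]
  {ℱ : Filtration ℕ m0} {A : ℕ → Set Ω}

/-- There are at least `m` trials among the times `t, ..., t + j - 1` and all of them fail, without violation.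
A trial at the time `n` is the event `W n`, it fails outside `A (n + h + 1)`. -/
def Fl (A V W : ℕ → Set Ω) (h : ℕ) : ℕ → ℕ → ℕ → Set Ω
  | _, 0, m => {_ω | m = 0}
  | t, j + 1, m => (V (t + h))ᶜ ∩ ((W t ∩ (A (t + h + 1))ᶜ ∩ Fl A V W h (t + 1) j (m - 1)) ∪
      ((W t)ᶜ ∩ Fl A V W h (t + 1) j m))

/-- **many trials** -/
theorem Fl_le (hA : ∀ n, MeasurableSet[ℱ n] (A n)) {V : ℕ → Set Ω} (hV : ∀ n, MeasurableSet[ℱ n] (V n))
    {W : ℕ → Set Ω} (hW : ∀ n, MeasurableSet[ℱ n] (W n)) {l : ℝ} (hl0 : 0 ≤ l) (hl1 : l ≤ 1) (h : ℕ) (j : ℕ) :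
    ∀ t m, (∀ n, t + h ≤ n → n < t + h + j → ∀ ω, ω ∉ V n → l ≤ dens μ ℱ A n ω) →
      ∀ B, MeasurableSet[ℱ (t + h)] B → μ.real (B ∩ Fl A V W h t j m) ≤ (1 - l) ^ m * μ.real B := by
  induction j with
  | zero =>
    intro t m _ B _
    have h0 : 0 ≤ 1 - l := by linarith
    by_cases hm : m = 0
    · subst hm
      rw [pow_zero, one_mul]
      exact measureReal_mono inter_subset_left
    · have : B ∩ Fl A V W h t 0 m = ∅ := by
        ext ω
        simp [Fl, hm]
      rw [this, measureReal_empty]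
      have : 0 ≤ μ.real B := measureReal_nonneg
      positivity
  | succ j ih =>
    intro t m hbd B hB
    have h0 : 0 ≤ 1 - l := by linarith
    have hWh : MeasurableSet[ℱ (t + h)] (W t) := ℱ.mono (by omega) _ (hW t)
    have hW0 : MeasurableSet (W t) := ℱ.le _ _ hWh
    have hA0 : MeasurableSet (A (t + h + 1)) := ℱ.le _ _ (hA _)
    obtain ⟨B1, hB1⟩ : ∃ B1, B1 = (B ∩ W t) \ V (t + h) := ⟨_, rfl⟩
    obtain ⟨B2, hB2⟩ : ∃ B2, B2 = (B \ W t) \ V (t + h) := ⟨_, rfl⟩
    have hB1m : MeasurableSet[ℱ (t + h)] B1 := by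
      rw [hB1]
      exact @MeasurableSet.diff _ (ℱ _) _ _ (@MeasurableSet.inter _ (ℱ _) _ _ hB hWh) (hV _)
    have hB2m : MeasurableSet[ℱ (t + h)] B2 := by
      rw [hB2]
      exact @MeasurableSet.diff _ (ℱ _) _ _ (@MeasurableSet.diff _ (ℱ _) _ _ hB hWh) (hV _)
    have hB1' : MeasurableSet[ℱ (t + 1 + h)] (B1 \ A (t + h + 1)) := by
      rw [show t + 1 + h = t + h + 1 by ring]
      exact @MeasurableSet.diff _ (ℱ _) _ _ (ℱ.mono (Nat.le_succ _) _ hB1m) (hA _)
    have hB2' : MeasurableSet[ℱ (t + 1 + h)] B2 := ℱ.mono (by omega) _ hB2m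
    have hbd' : ∀ n, t + 1 + h ≤ n → n < t + 1 + h + j → ∀ ω, ω ∉ V n → l ≤ dens μ ℱ A n ω :=
      fun n h1 h2 => hbd n (by omega) (by omega)
    have i1 := ih (t + 1) (m - 1) hbd' _ hB1'
    have i2 := ih (t + 1) m hbd' _ hB2'
    have hlow := lower_meas (μ := μ) hA (t + h) hB1m (l := l)
      (fun ω hω => hbd (t + h) le_rfl (by omega) ω (by rw [hB1] at hω; exact hω.2))
    have hsplit := measureReal_inter_add_sdiff (μ := μ) (s := B1) hA0
    have hsplitW := measureReal_inter_add_sdiff (μ := μ) (s := B) hW0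
    have hs1 : μ.real B1 ≤ μ.real (B ∩ W t) := by
      rw [hB1]
      exact measureReal_mono sdiff_subset
    have hs2 : μ.real B2 ≤ μ.real (B \ W t) := by
      rw [hB2]
      exact measureReal_mono sdiff_subset
    have hsub : B ∩ Fl A V W h t (j + 1) m ⊆
        ((B1 \ A (t + h + 1)) ∩ Fl A V W h (t + 1) j (m - 1)) ∪ (B2 ∩ Fl A V W h (t + 1) j m) := by
      rintro ω ⟨g1, g2, g3⟩
      rcases g3 with ⟨⟨g4, g5⟩, g6⟩ | ⟨g4, g5⟩
      · left
        rw [hB1]
        exact ⟨⟨⟨⟨g1, g4⟩, g2⟩, g5⟩, g6⟩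
      · right
        rw [hB2]
        exact ⟨⟨⟨g1, g4⟩, g2⟩, g5⟩
    have hm1 : μ.real ((B1 \ A (t + h + 1)) ∩ Fl A V W h (t + 1) j (m - 1)) ≤ (1 - l) ^ m * μ.real B1 := by
      have k1 : μ.real (B1 \ A (t + h + 1)) ≤ (1 - l) * μ.real B1 := by linarith
      have k2 : 0 ≤ μ.real B1 := measureReal_nonneg
      refine i1.trans ?_
      rcases Nat.eq_zero_or_pos m with hm | hm
      · subst hm
        simp only [Nat.zero_sub, pow_zero, one_mul]
        nlinarith
      · calc (1 - l) ^ (m - 1) * μ.real (B1 \ A (t + h + 1)) ≤ (1 - l) ^ (m - 1) * ((1 - l) * μ.real B1) :=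
              mul_le_mul_of_nonneg_left k1 (pow_nonneg h0 _)
          _ = (1 - l) ^ m * μ.real B1 := by
              rw [← mul_assoc, ← pow_succ, Nat.sub_add_cancel hm]
    have hpow : 0 ≤ (1 - l) ^ m := pow_nonneg h0 m
    calc μ.real (B ∩ Fl A V W h t (j + 1) m)
        ≤ μ.real (((B1 \ A (t + h + 1)) ∩ Fl A V W h (t + 1) j (m - 1)) ∪ (B2 ∩ Fl A V W h (t + 1) j m)) :=
          measureReal_mono hsub
      _ ≤ μ.real ((B1 \ A (t + h + 1)) ∩ Fl A V W h (t + 1) j (m - 1)) +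
            μ.real (B2 ∩ Fl A V W h (t + 1) j m) := measureReal_union_le _ _
      _ ≤ (1 - l) ^ m * μ.real B1 + (1 - l) ^ m * μ.real B2 := add_le_add hm1 i2
      _ ≤ (1 - l) ^ m * μ.real B := by
          rw [← mul_add]
          apply mul_le_mul_of_nonneg_left _ hpow
          linarith

open Classical in
lemma mem_Fl {V W : ℕ → Set Ω} (h : ℕ) (ω : Ω) (j : ℕ) : ∀ t m,
    (∀ n, t ≤ n → n < t + j → ω ∈ W n → ω ∉ A (n + h + 1)) →
    (∀ n, t + h ≤ n → n < t + h + j → ω ∉ V n) →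
    m ≤ ((Finset.Ico t (t + j)).filter (fun n => ω ∈ W n)).card → ω ∈ Fl A V W h t j m := by
  induction j with
  | zero =>
    intro t m _ _ h3
    simp only [add_zero, Finset.Ico_self, Finset.filter_empty, Finset.card_empty, Nat.le_zero] at h3
    exact h3
  | succ j ih =>
    intro t m h1 h2 h3
    have e : Finset.Ico t (t + (j + 1)) = insert t (Finset.Ico (t + 1) (t + 1 + j)) := by
      ext x
      simp only [Finset.mem_Ico, Finset.mem_insert]
      omega
    have hnot : t ∉ (Finset.Ico (t + 1) (t + 1 + j)).filter (fun n => ω ∈ W n) := by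
      simp
    refine ⟨h2 (t + h) le_rfl (by omega), ?_⟩
    by_cases hw : ω ∈ W t
    · left
      rw [e, Finset.filter_insert, if_pos hw, Finset.card_insert_of_notMem hnot] at h3
      exact ⟨⟨hw, h1 t le_rfl (by omega) hw⟩, ih (t + 1) (m - 1) (fun n g1 g2 => h1 n (by omega) (by omega))
        (fun n g1 g2 => h2 n (by omega) (by omega)) (by omega)⟩
    · right
      rw [e, Finset.filter_insert, if_neg hw] at h3
      exact ⟨hw, ih (t + 1) m (fun n g1 g2 => h1 n (by omega) (by omega))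
        (fun n g1 g2 => h2 n (by omega) (by omega)) h3⟩

open Classical in
/-- the trial events of a finite set of indices -/
def WI (A : ℕ → Set Ω) (I : Finset ℕ) (t : ℕ) : Set Ω :=
  {ω | ω ∈ A t ∧ Nat.count (fun k => ω ∈ A k) t ∈ I}

open Classical in
lemma count_meas (hA : ∀ n, MeasurableSet[ℱ n] (A n)) (t : ℕ) : ∀ s, t ≤ s + 1 → ∀ c : ℕ,
    MeasurableSet[ℱ s] {ω | Nat.count (fun k => ω ∈ A k) t = c} := by
  induction t with
  | zero =>
    intro s _ c
    simp only [Nat.count_zero]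
    exact @MeasurableSet.const _ (ℱ s) _
  | succ t ih =>
    intro s hs c
    have h1 := ih s (by omega) c
    have h2 := ih s (by omega) (c - 1)
    have h3 : MeasurableSet[ℱ s] (A t) := ℱ.mono (by omega) _ (hA t)
    have e : {ω | Nat.count (fun k => ω ∈ A k) (t + 1) = c} =
        (A t ∩ ({ω | Nat.count (fun k => ω ∈ A k) t = c - 1} ∩ {_ω | 0 < c})) ∪
        ((A t)ᶜ ∩ {ω | Nat.count (fun k => ω ∈ A k) t = c}) := by
      ext ω
      simp only [mem_ofPred_eq, mem_union, mem_inter_iff, mem_compl_iff]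
      rw [Nat.count_succ]
      by_cases hω : ω ∈ A t
      · rw [if_pos hω]
        constructor
        · intro h; left; exact ⟨hω, by omega, by omega⟩
        · rintro (⟨_, g1, g2⟩ | ⟨g, _⟩)
          · omega
          · exact absurd hω g
      · rw [if_neg hω]
        constructor
        · intro h; right; exact ⟨hω, by omega⟩
        · rintro (⟨g, _⟩ | ⟨_, g⟩)
          · exact absurd g hω
          · omega
    rw [e]
    exact @MeasurableSet.union _ (ℱ s) _ _
      (@MeasurableSet.inter _ (ℱ s) _ _ h3 (@MeasurableSet.inter _ (ℱ s) _ _ h2 (@MeasurableSet.const _ (ℱ s) _)))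
      (@MeasurableSet.inter _ (ℱ s) _ _ (@MeasurableSet.compl _ _ (ℱ s) h3) h1)

lemma WI_meas (hA : ∀ n, MeasurableSet[ℱ n] (A n)) (I : Finset ℕ) (t : ℕ) : MeasurableSet[ℱ t] (WI A I t) := by
  classical
  have e : WI A I t = A t ∩ ⋃ c ∈ I, {ω | Nat.count (fun k => ω ∈ A k) t = c} := by
    ext ω
    simp [WI]
  rw [e]
  refine @MeasurableSet.inter _ (ℱ t) _ _ (hA t) ?_
  exact @Finset.measurableSet_biUnion _ _ (ℱ t) _ I fun c _ => count_meas hA t t (Nat.le_succ t) c

end Pool.Agent.N424.SMB
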