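import Mathlib
import Pool.Agent.N424.SMB.Trials

/-!
# The least `k` such that the chosen integer number `k ^ j n` plus `h` is chosen (helper424)
-/

set_option autoImplicit false
set_option linter.unusedSectionVars false

open MeasureTheory Filter Set
open scoped ENNReal Topology NNReal

namespace Pool.Agent.N424.SMB

open Pool.Agent.R528.RM Pool.Agent.N740.HK

variable {Ω : Type} {m0 : MeasurableSpace Ω} {μ : Measure Ω} [IsProbabilityMeasure μ]
  {ℱ : Filtration ℕ m0} {A : ℕ → Set Ω}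

/-- the number of the trials -/
noncomputable def KK (e : ℝ) (n : ℕ) : ℕ := ⌊(1 + e) * Real.log n ^ 2⌋₊

/-- the largest index -/
noncomputable def xx (e : ℝ) (j n : ℕ) : ℕ := KK e n ^ j * n

/-- the indices, starting from `0` -/
noncomputable def II' (e : ℝ) (j n : ℕ) : Finset ℕ := (Finset.Icc 1 (KK e n)).image (fun k => k ^ j * n - 1)

/-- half of the last time -/
noncomputable def YY (e : ℝ) (j n : ℕ) : ℕ := ⌈(xx e j n : ℝ) ^ (1 + e / 8)⌉₊

/-- the lower bound of the probability of a success -/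
noncomputable def ll (e : ℝ) (j n : ℕ) : ℝ := (1 - e / 8) / ((1 + e / 8) * Real.log (xx e j n) + 3)

lemma II'_card {e : ℝ} {j n : ℕ} (hj : 1 ≤ j) (hn : 1 ≤ n) : (II' e j n).card = KK e n := by
  unfold II'
  rw [Finset.card_image_of_injOn, Nat.card_Icc, Nat.add_sub_cancel]
  intro a ha b hb hab
  have ha := (Finset.mem_Icc.1 (Finset.mem_coe.1 ha)).1
  have hb := (Finset.mem_Icc.1 (Finset.mem_coe.1 hb)).1
  simp only at hab
  have h1 : 1 ≤ a ^ j * n := Nat.mul_pos (pow_pos ha j) hn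
  have h2 : 1 ≤ b ^ j * n := Nat.mul_pos (pow_pos hb j) hn
  have h3 : a ^ j * n = b ^ j * n := by omega
  exact Nat.pow_left_injective (by omega) (Nat.eq_of_mul_eq_mul_right hn h3)

lemma ana {e : ℝ} (he : 0 < e) (he1 : e ≤ 1) (j : ℕ) : ∀ᶠ n : ℕ in atTop,
    1 ≤ KK e n ∧ n ≤ xx e j n ∧ 0 ≤ Real.log (xx e j n) ∧ (1 + e / 2) * Real.log n ≤ ll e j n * KK e n := by
  have hc : 0 < e / (256 * (j + 1)) := by positivity
  have h1 := (Real.isLittleO_log_id_atTop).def hc
  have h1' := tendsto_logN.eventually h1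
  filter_upwards [h1', tendsto_logN.eventually_ge_atTop (32 * (4 * j + 7) / e), tendsto_logN.eventually_ge_atTop 2,
    eventually_ge_atTop 1] with n g1 g2 g3 hn
  obtain ⟨L, hL⟩ : ∃ L, L = Real.log (n : ℝ) := ⟨_, rfl⟩
  simp only [id] at g1
  rw [← hL] at g1 g2 g3
  have hL0 : 0 < L := by linarith
  have hlogL : 0 ≤ Real.log L := Real.log_nonneg (by linarith)
  rw [Real.norm_of_nonneg hlogL, Real.norm_of_nonneg hL0.le] at g1
  obtain ⟨K, hK⟩ : ∃ K : ℝ, K = (KK e n : ℝ) := ⟨_, rfl⟩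
  have hK1 : K ≤ (1 + e) * L ^ 2 := by
    rw [hK, KK, hL]
    exact Nat.floor_le (by positivity)
  have hK2 : (1 + e) * L ^ 2 - 1 ≤ K := by
    rw [hK, KK, hL]
    exact (Nat.sub_one_lt_floor _).le
  have hK3 : 1 ≤ K := by nlinarith
  have hK3' : 1 ≤ KK e n := by
    rw [hK] at hK3
    exact_mod_cast hK3
  have hxn : n ≤ xx e j n := Nat.le_mul_of_pos_left n (pow_pos hK3' j)
  have hn0 : (0 : ℝ) < n := by exact_mod_cast hn
  have hlogx : Real.log (xx e j n) = j * Real.log K + L := by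
    unfold xx
    push_cast
    rw [← hK, Real.log_mul (by positivity) hn0.ne', Real.log_pow, hL]
  have hlogK0 : 0 ≤ Real.log K := Real.log_nonneg hK3
  have hlogK : Real.log K ≤ 1 + 2 * Real.log L := by
    have k1 : Real.log K ≤ Real.log (2 * L ^ 2) := by
      apply Real.log_le_log (by linarith)
      nlinarith [sq_nonneg L]
    rw [Real.log_mul (by norm_num) (by positivity), Real.log_pow] at k1
    have := Real.log_two_lt_d9
    push_cast at k1
    linarith
  have hj0 : (0 : ℝ) ≤ j := Nat.cast_nonneg j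
  refine ⟨hK3', hxn, by rw [hlogx]; positivity, ?_⟩
  rw [← hL, ← hK]
  unfold ll
  rw [hlogx]
  obtain ⟨D, hD⟩ : ∃ D : ℝ, D = (1 + e / 8) * (j * Real.log K + L) + 3 := ⟨_, rfl⟩
  rw [← hD]
  have hD0 : 0 < D := by rw [hD]; positivity
  rw [div_mul_eq_mul_div, le_div_iff₀ hD0]
  -- the estimates
  have g2' : 4 * (j : ℝ) + 7 ≤ e / 32 * L := by
    rw [div_le_iff₀ he] at g2
    linarith
  have g1' : 8 * (j : ℝ) * Real.log L ≤ e / 32 * L := by
    have k1 : 8 * (j : ℝ) * Real.log L ≤ 8 * (j + 1) * (e / (256 * (j + 1)) * L) := by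
      apply mul_le_mul (by linarith) g1 hlogL (by positivity)
    have k2 : 8 * ((j : ℝ) + 1) * (e / (256 * (j + 1)) * L) = e / 32 * L := by
      field_simp
      norm_num
    linarith
  have d1 : D ≤ (1 + e / 8) * L + 2 * (j * (1 + 2 * Real.log L)) + 3 := by
    rw [hD]
    have k1 : j * Real.log K ≤ j * (1 + 2 * Real.log L) := mul_le_mul_of_nonneg_left hlogK hj0
    have k2 : 0 ≤ j * Real.log K := by positivity
    nlinarith
  have d2 : (1 + e / 2) * L * D ≤ (1 + 11 / 16 * e) * L ^ 2 + 2 * L * (2 * (j * (1 + 2 * Real.log L)) + 3) := by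
    calc (1 + e / 2) * L * D ≤ (1 + e / 2) * L * ((1 + e / 8) * L + 2 * (j * (1 + 2 * Real.log L)) + 3) := by
          apply mul_le_mul_of_nonneg_left d1
          positivity
      _ = (1 + e / 2) * (1 + e / 8) * L ^ 2 + (1 + e / 2) * (L * (2 * (j * (1 + 2 * Real.log L)) + 3)) := by ring
      _ ≤ (1 + 11 / 16 * e) * L ^ 2 + 2 * (L * (2 * (j * (1 + 2 * Real.log L)) + 3)) := by
          apply add_le_add
          · apply mul_le_mul_of_nonneg_right _ (sq_nonneg L)
            nlinarith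
          · apply mul_le_mul_of_nonneg_right (by linarith)
            positivity
      _ = _ := by ring
  have d3 : (1 + 3 / 4 * e) * L ^ 2 - 1 ≤ (1 - e / 8) * K := by
    have k1 : (1 - e / 8) * ((1 + e) * L ^ 2 - 1) ≤ (1 - e / 8) * K :=
      mul_le_mul_of_nonneg_left hK2 (by linarith)
    have k2 : (1 + 3 / 4 * e) * L ^ 2 ≤ (1 - e / 8) * (1 + e) * L ^ 2 := by
      apply mul_le_mul_of_nonneg_right _ (sq_nonneg L)
      nlinarith
    nlinarith
  have d4 : 2 * L * (2 * (j * (1 + 2 * Real.log L)) + 3) + 1 ≤ e / 16 * L ^ 2 := by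
    have k1 : 2 * L * (2 * (j * (1 + 2 * Real.log L)) + 3) + 1 ≤ L * (4 * j + 7) + L * (8 * j * Real.log L) := by
      nlinarith
    have k2 : L * (4 * j + 7) + L * (8 * j * Real.log L) ≤ L * (e / 32 * L) + L * (e / 32 * L) :=
      add_le_add (mul_le_mul_of_nonneg_left g2' hL0.le) (mul_le_mul_of_nonneg_left g1' hL0.le)
    linarith
  linarith

lemma tendsto_xx {e : ℝ} (he : 0 < e) (he1 : e ≤ 1) (j : ℕ) : Tendsto (fun n => xx e j n) atTop atTop :=
  tendsto_atTop_mono' _ ((ana he he1 j).mono fun _ h => h.2.1) tendsto_id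

/-- the trials fail -/
def FE (μ : Measure Ω) (ℱ : Filtration ℕ m0) (A : ℕ → Set Ω) (e : ℝ) (h j n : ℕ) : Set Ω :=
  Fl A (VF μ ℱ A (e / 8)) (WI A (II' e j n)) h (n - 1) (2 * YY e j n + 1) (KK e n)

theorem FE_le (hA : ∀ n, MeasurableSet[ℱ n] (A n)) {e : ℝ} (he : 0 < e) (he1 : e ≤ 1) (h j : ℕ) :
    ∀ᶠ n : ℕ in atTop, μ.real (FE μ ℱ A e h j n) ≤ 1 / (n : ℝ) ^ (1 + e / 2) := by
  have hx := tendsto_xx he he1 j
  have hpow := hx.eventually (pow_ev (show 0 < e / 8 by positivity))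
  filter_upwards [ana he he1 j, hpow, eventually_ge_atTop (h + 4)] with n h1 h2 h3
  obtain ⟨hK, hxn, hlx, hmain⟩ := h1
  obtain ⟨-, h2⟩ := h2
  have hYd : YY e j n = ⌈(xx e j n : ℝ) ^ (1 + e / 8)⌉₊ := rfl
  rw [← hYd] at h2
  have hn4 : 4 ≤ n := by omega
  have hn0 : (0 : ℝ) < n := by
    have : 0 < n := by omega
    exact_mod_cast this
  have hxY : xx e j n ≤ YY e j n := by
    have hx1 : (1 : ℝ) ≤ xx e j n := by
      have : 1 ≤ xx e j n := by omega
      exact_mod_cast this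
    have k1 : (xx e j n : ℝ) ≤ (xx e j n : ℝ) ^ (1 + e / 8) := by
      calc (xx e j n : ℝ) = (xx e j n : ℝ) ^ (1 : ℝ) := (Real.rpow_one _).symm
        _ ≤ _ := Real.rpow_le_rpow_of_exponent_le hx1 (by linarith)
    have k2 : (xx e j n : ℝ) ≤ YY e j n := k1.trans (Nat.le_ceil _)
    exact_mod_cast k2
  have hD0 : 0 < (1 + e / 8) * Real.log (xx e j n) + 3 := by positivity
  have hl0 : 0 ≤ ll e j n := div_nonneg (by linarith) hD0.le
  have hl1 : ll e j n ≤ 1 := by
    unfold ll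
    rw [div_le_one hD0]
    have : 0 ≤ (1 + e / 8) * Real.log (xx e j n) := by positivity
    linarith
  have hbd : ∀ t, n - 1 + h ≤ t → t < n - 1 + h + (2 * YY e j n + 1) → ∀ ω, ω ∉ VF μ ℱ A (e / 8) t →
      ll e j n ≤ dens μ ℱ A t ω := by
    intro t ht1 ht2 ω hω
    simp only [VF, mem_ofPred_eq, not_not] at hω
    have hω' := (abs_le.1 hω).1
    have ht3 : t ≤ 2 * (2 * YY e j n) := by omega
    have ht0 : (0 : ℝ) < t := by
      have : 0 < t := by omega
      exact_mod_cast this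
    have hY0 : (0 : ℝ) < ((2 * YY e j n : ℕ) : ℝ) := by
      have : 0 < 2 * YY e j n := by omega
      exact_mod_cast this
    have hlogt : Real.log t ≤ (1 + e / 8) * Real.log (xx e j n) + 3 := by
      have k1 : Real.log t ≤ Real.log (2 * ((2 * YY e j n : ℕ) : ℝ)) :=
        Real.log_le_log ht0 (by exact_mod_cast ht3)
      rw [Real.log_mul (by norm_num) hY0.ne'] at k1
      have := Real.log_two_lt_d9
      linarith
    have hlogt0 : 0 < Real.log t := Real.log_pos (by
      have : 2 ≤ t := by omega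
      have : (2 : ℝ) ≤ t := by exact_mod_cast this
      linarith)
    have hd : (1 - e / 8) ≤ dens μ ℱ A t ω * Real.log t := by linarith
    have hd0 : 0 ≤ dens μ ℱ A t ω := by
      by_contra hcon
      push Not at hcon
      have : dens μ ℱ A t ω * Real.log t < 0 := mul_neg_of_neg_of_pos hcon hlogt0
      linarith
    unfold ll
    rw [div_le_iff₀ hD0]
    exact hd.trans (mul_le_mul_of_nonneg_left hlogt hd0)
  have main := Fl_le (μ := μ) hA (V := VF μ ℱ A (e / 8)) (fun n => VF_meas (e / 8) n)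
    (W := WI A (II' e j n)) (WI_meas hA _) hl0 hl1 h (2 * YY e j n + 1) (n - 1) (KK e n) hbd univ
    (@MeasurableSet.univ _ (ℱ _))
  rw [univ_inter, probReal_univ, mul_one] at main
  refine main.trans ?_
  calc (1 - ll e j n) ^ KK e n ≤ Real.exp (-(ll e j n)) ^ KK e n := by
        apply pow_le_pow_left₀ (by linarith)
        have := Real.add_one_le_exp (-(ll e j n))
        linarith
    _ = Real.exp (-(ll e j n * KK e n)) := by
        rw [← Real.exp_nat_mul]
        congr 1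
        ring
    _ ≤ Real.exp (-((1 + e / 2) * Real.log n)) := Real.exp_le_exp.2 (by linarith)
    _ = 1 / (n : ℝ) ^ (1 + e / 2) := by
        rw [Real.rpow_def_of_pos hn0, one_div, ← Real.exp_neg]
        congr 1
        ring

/-- **the upper bound** -/
theorem upper (hA : ∀ n, MeasurableSet[ℱ n] (A n))
    (hd : ∀ᵐ ω ∂μ, Tendsto (fun n : ℕ => dens μ ℱ A n ω * Real.log n) atTop (𝓝 1))
    (h j : ℕ) (hj : 1 ≤ j) {e : ℝ} (he : 0 < e) (he1 : e ≤ 1) :
    ∀ᵐ ω ∂μ, ∀ᶠ n : ℕ in atTop, ∃ k : ℕ, 1 ≤ k ∧ (k : ℝ) ≤ (1 + e) * Real.log n ^ 2 ∧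
      pn {m | ω ∈ A m} (k ^ j * n - 1) + (h + 1) ∈ {m | ω ∈ A m} := by
  classical
  have hsum : ∑' n : ℕ, μ (FE μ ℱ A e h j n) ≠ ∞ := by
    have h1 : Summable (fun n : ℕ => 1 / (n : ℝ) ^ (1 + e / 2)) :=
      Real.summable_one_div_nat_rpow.2 (by linarith)
    have h2 : Summable (fun n : ℕ => μ.real (FE μ ℱ A e h j n)) := by
      refine Summable.of_norm_bounded_eventually_nat h1 ?_
      filter_upwards [FE_le (μ := μ) hA he he1 h j] with n hn
      rw [Real.norm_of_nonneg measureReal_nonneg]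
      exact hn
    have h3 : ∑' n : ℕ, μ (FE μ ℱ A e h j n) = ENNReal.ofReal (∑' n : ℕ, μ.real (FE μ ℱ A e h j n)) := by
      rw [ENNReal.ofReal_tsum_of_nonneg (fun _ => measureReal_nonneg) h2]
      congr 1
      funext i
      exact (ofReal_measureReal (measure_ne_top _ _)).symm
    rw [h3]
    exact ENNReal.ofReal_ne_top
  have hYt : Tendsto (fun n => YY e j n) atTop atTop := by
    refine tendsto_nat_ceil_atTop.comp ((tendsto_rpow_atTop (by linarith)).comp
      (tendsto_natCast_atTop_atTop.comp (tendsto_xx he he1 j)))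
  filter_upwards [ae_eventually_notMem hsum, hd, dn_ae hA hd, up_ae hA hd] with ω h1 h2 h3 h4
  obtain ⟨n₀, hn₀⟩ := no_VF h2 (show 0 < e / 8 by positivity)
  have hinf : {m | ω ∈ A m}.Infinite := infinite_of fun K => by
    obtain ⟨q, hq, hK⟩ := up_inf h4 K
    exact ⟨q, hK, hq⟩
  filter_upwards [h1, hYt.eventually h3, (tendsto_xx he he1 j).eventually (pow_ev (show 0 < e / 8 by positivity)),
    ana he he1 j, eventually_ge_atTop (n₀ + 1)] with n g1 g2 g3 g4 g5
  by_contra hcon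
  push Not at hcon
  apply g1
  have hpn : pn {m | ω ∈ A m} (xx e j n) ≤ 2 * YY e j n := g2 (xx e j n) g3.1
  refine mem_Fl h ω _ _ _ ?_ ?_ ?_
  · intro t _ _ hW hS
    simp only [WI, mem_ofPred_eq, II', Finset.mem_image, Finset.mem_Icc] at hW
    obtain ⟨hW1, k, ⟨hk1, hk2⟩, hk3⟩ := hW
    apply hcon k hk1
    · have : (KK e n : ℝ) ≤ (1 + e) * Real.log n ^ 2 := Nat.floor_le (by positivity)
      exact le_trans (by exact_mod_cast hk2) this
    · have e1 : pn {m | ω ∈ A m} (k ^ j * n - 1) = t := by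
        rw [hk3]
        exact Nat.nth_count (p := (· ∈ {m | ω ∈ A m})) hW1
      rw [e1]
      exact hS
  · intro t ht _
    exact hn₀ t (by omega)
  · rw [← II'_card (e := e) hj (show 1 ≤ n by omega)]
    refine Finset.card_le_card_of_injOn (pn {m | ω ∈ A m}) ?_ ((nth_mono hinf).injective.injOn)
    intro i hi
    have hi := Finset.mem_coe.1 hi
    have hi' := hi
    simp only [II', Finset.mem_image, Finset.mem_Icc] at hi'
    obtain ⟨k, ⟨hk1, hk2⟩, hk3⟩ := hi'
    rw [Finset.mem_coe, Finset.mem_filter, Finset.mem_Ico]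
    have hle : k ^ j * n ≤ xx e j n := Nat.mul_le_mul_right n (Nat.pow_le_pow_left hk2 j)
    have hge : n ≤ k ^ j * n := Nat.le_mul_of_pos_left n (pow_pos hk1 j)
    have h5 : i ≤ pn {m | ω ∈ A m} i := (nth_mono hinf).le_apply
    have h6 : pn {m | ω ∈ A m} i ≤ pn {m | ω ∈ A m} (xx e j n) := (nth_mono hinf).monotone (by omega)
    refine ⟨⟨by omega, by omega⟩, ?_⟩
    refine ⟨nth_mem hinf i, ?_⟩
    have h7 : Nat.count (fun k => ω ∈ A k) (pn {m | ω ∈ A m} i) = i :=
      Nat.count_nth_of_infinite (p := (· ∈ {m | ω ∈ A m})) hinf i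
    rw [h7]
    exact hi

end Pool.Agent.N424.SMB
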